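import Pool.Agent.Work.MP_db9399_sc.Interface
import Pool.Agent.Work.MP_db9399_px_helper35.Final

/-! # RND: a random colouring of the vertices -/

set_option autoImplicit false

namespace Pool.Agent.Work.MP_db9399_sc.helper89

open Finset Classical
open Pool.Agent.Work.MP_db9399_all (nb)
open Pool.Agent.Work.MP_db9399_px (LWalk hit Blocks atm cc GoodF Stmt_LLX llx_holds)

universe u

theorem rnd_of_llx (hllx : Stmt_LLX.{u}) : Stmt_RND.{u} := by
  intro M hM
  have hM0 : (0 : ℝ) < M := by exact_mod_cast hM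
  have hM1 : (1 : ℝ) ≤ M := by exact_mod_cast hM
  obtain ⟨d0, hd0, H⟩ := hllx M (1 / 4) (1 / M) (1 / 100) hM (by norm_num) (by norm_num)
    (by positivity) (by rw [div_le_one hM0]; exact hM1) (by norm_num)
  refine ⟨d0, hd0, ?_⟩
  intro V _ G d hd hdeg
  obtain ⟨f, h1, h2⟩ := H G d id (fun _ => ⟨0, hM⟩) hd hdeg (fun v w h _ => h)
  refine ⟨fun v => atm M id (fun _ => ⟨0, hM⟩) f v, ?_, ?_⟩
  · intro v i
    have h3 := (h1 v {i}).1
    have e1 : (nb G v).filter (fun w => atm M id (fun _ => ⟨0, hM⟩) f w = i) =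
        nb G v ∩ cc M id (fun _ => ⟨0, hM⟩) f {i} := by
      ext w
      simp [cc]
    rw [e1]
    rw [card_singleton] at h3
    have h4 := (abs_le.1 h3).2
    have h5 : ((nb G v).card : ℝ) ≤ d := by exact_mod_cast hdeg v
    have h6 : ((nb G v ∩ cc M id (fun _ => ⟨0, hM⟩) f {i}).card : ℝ) ≤
        1 / M * d + 1 / M * d := by
      have : ((1 : ℕ) : ℝ) / M * (nb G v).card ≤ 1 / M * d := by
        rw [Nat.cast_one]
        exact mul_le_mul_of_nonneg_left h5 (by positivity)
      linarith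
    calc (M : ℝ) * ((nb G v ∩ cc M id (fun _ => ⟨0, hM⟩) f {i}).card : ℝ)
        ≤ M * (1 / M * d + 1 / M * d) := mul_le_mul_of_nonneg_left h6 hM0.le
      _ = 2 * d := by field_simp; ring
  · intro i l w R θ hw hl hθ hR hc
    have h3 := (h2 {i} {i} l w R R θ θ rfl (singleton_nonempty i) hw hl hθ hθ
      (fun v hv => hR v (by simpa using hv)) (by linarith)).2.2
    have e1 : (hit G θ R).filter (fun w => atm M id (fun _ => ⟨0, hM⟩) f w = i) =
        hit G θ R ∩ cc M id (fun _ => ⟨0, hM⟩) f {i} := by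
      ext w
      simp [cc]
    rw [e1]
    rw [card_singleton, Nat.cast_one] at h3
    have h4 := (abs_le.1 h3).1
    have h5 : ((hit G θ R).card : ℝ) = M * (1 / M * (hit G θ R).card) := by field_simp
    have h6 : 1 / M * ((hit G θ R).card : ℝ) ≤
        2 * ((hit G θ R ∩ cc M id (fun _ => ⟨0, hM⟩) f {i}).card : ℝ) := by
      have e2 : 1 / 4 * (1 / (M : ℝ)) * (((hit G θ R).card : ℝ) + (hit G θ R).card) =
          1 / 2 * (1 / M * (hit G θ R).card) := by ring
      rw [e2] at h4
      linarith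
    calc ((hit G θ R).card : ℝ) = M * (1 / M * (hit G θ R).card) := h5
      _ ≤ M * (2 * ((hit G θ R ∩ cc M id (fun _ => ⟨0, hM⟩) f {i}).card : ℝ)) :=
        mul_le_mul_of_nonneg_left h6 hM0.le
      _ = _ := by ring

theorem stmt_RND : Stmt_RND.{u} := rnd_of_llx llx_holds

end Pool.Agent.Work.MP_db9399_sc.helper89
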